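import Pool.Agent.W312.TP.Stm

/-!
# Tree t-spanners of path graphs: the statement `TF`
-/

set_option autoImplicit false

namespace Pool.Agent.W101.TP

open Pool.Agent.W312.TP

/-- Numeric core of `TF`. -/
theorem tf_num (t r α β α' β' e e' D : ℕ) (hr : 2 ≤ r) (h1 : 2 * r ≤ t) (h2 : t ≤ 2 * r + 1)
    (ha : α ≤ t) (hb : β ≤ t) (ha' : α' ≤ t) (hb' : β' ≤ t) (hD : D = r - 1)
    (he : 1 ≤ e) (he' : 1 ≤ e') (hs : α + β = 2 * e + t) (hs' : α' + β' = 2 * e' + t)
    (c1 : α' = α + (r - 1) ∨ α = α' + (r - 1)) (c2 : β' = β + (r - 1) ∨ β = β' + (r - 1))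
    (f1 : β + α' ≤ max (D + t) (α + β')) (f2 : α + β' ≤ max (D + t) (β + α')) :
    (α + β = t + 2 ∧ α' = α + (r - 1) ∧ β' = β + (r - 1)) ∨
      (α' + β' = t + 2 ∧ α = α' + (r - 1) ∧ β = β' + (r - 1)) := by
  subst hD
  rcases c1 with c1 | c1 <;> rcases c2 with c2 | c2
  · left; refine ⟨?_, c1, c2⟩; omega
  · exfalso; rcases le_max_iff.1 f1 with f | f <;> omega
  · exfalso; rcases le_max_iff.1 f2 with f | f <;> omega
  · right; refine ⟨?_, c1, c2⟩; omega

theorem proof_TF (h1 : PROJ) (h2 : FOUR) (_h3 : PAR) (h4 : BB) : Pool.Agent.W312.TP.TF := by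
  intro t p gs V T c P a ht hC
  have hr2 : 2 ≤ rr t := by unfold rr; omega
  have hr3 : 2 * rr t ≤ t := by unfold rr; omega
  have hr4 : t ≤ 2 * rr t + 1 := by unfold rr; omega
  have hconn := hC.tree.connected
  have hne : ∀ j, j + 2 ≤ t → c j ≠ c (j + 2) := by
    intro j hj h
    have := hC.cinj j (by omega) (j + 2) hj h
    omega
  have hproj := h1 V T hC.tree c t hC.cadj hne
  have hct : T.dist (c 0) (c t) = t := by
    obtain ⟨i, hi, h⟩ := hproj (c 0)
    have e0 := (h 0 (Nat.zero_le _)).1 (Nat.zero_le _)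
    rw [SimpleGraph.dist_self] at e0
    have e1 := (h t le_rfl).2 hi
    omega
  refine ⟨hct, ?_⟩
  intro i hi
  have key : ∀ j ≤ rr t - 1, ∃ e, 1 ≤ e ∧
      T.dist (P i j) (c 0) + T.dist (P i j) (c t) = 2 * e + t := by
    intro j hj
    obtain ⟨l, hl, h⟩ := hproj (P i j)
    have e0 := (h 0 (Nat.zero_le _)).1 (Nat.zero_le _)
    have e1 := (h t le_rfl).2 hl
    refine ⟨T.dist (P i j) (c l), ?_, by omega⟩
    exact hconn.pos_dist_of_ne (hC.pc i hi j hj l hl)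
  obtain ⟨e, he, hs⟩ := key 0 (Nat.zero_le _)
  obtain ⟨e', he', hs'⟩ := key (rr t - 1) le_rfl
  have d0 := hC.dc (2 * i) (by omega)
  have d1 := hC.dc (2 * i + 1) (by omega)
  have ev0 : EV t P (2 * i) = P i 0 := by
    unfold EV
    rw [if_pos (by omega), show 2 * i / 2 = i by omega]
  have ev1 : EV t P (2 * i + 1) = P i (rr t - 1) := by
    unfold EV
    rw [if_neg (by omega), show (2 * i + 1) / 2 = i by omega]
  rw [ev0] at d0
  rw [ev1] at d1
  obtain ⟨hD, hB⟩ := h4 t p gs V T c P a ht hC i hi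
  have b0 := hB (c 0) (fun j _ hj h => hC.pc i hi j (by omega) 0 (Nat.zero_le _) h.symm)
  have b1 := hB (c t) (fun j _ hj h => hC.pc i hi j (by omega) t le_rfl h.symm)
  rw [T.dist_comm (u := c 0), T.dist_comm (u := c 0) (v := P i 0)] at b0
  rw [T.dist_comm (u := c t), T.dist_comm (u := c t) (v := P i 0)] at b1
  have f1 := h2 V T hC.tree (P i 0) (c t) (P i (rr t - 1)) (c 0)
  have f2 := h2 V T hC.tree (P i 0) (c 0) (P i (rr t - 1)) (c t)
  rw [T.dist_comm (u := c t) (v := c 0), T.dist_comm (u := c t) (v := P i (rr t - 1)), hct] at f1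
  rw [T.dist_comm (u := c 0) (v := P i (rr t - 1)), hct] at f2
  exact tf_num t (rr t) _ _ _ _ e e' _ hr2 hr3 hr4 d0.1 d0.2 d1.1 d1.2 hD he he' hs hs' b0 b1 f1 f2

end Pool.Agent.W101.TP
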